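import Pool.Agent.Helper31.TW.St2

set_option autoImplicit false

/-! Project TW (helper31), MP_434a84_lc: module NME (helper90): in a residue class active walls do not meet. -/

namespace Pool.Agent.Helper90.TW

open Pool.Agent.Helper31.TW

private theorem nme_dot_add {n : ℕ} (α x y : Fin n → ℤ) : dot α (x + y) = dot α x + dot α y := by
  unfold dot
  rw [← Finset.sum_add_distrib]
  refine Finset.sum_congr rfl fun i _ => ?_
  rw [Pi.add_apply, mul_add]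

private theorem nme_dot_smul {n : ℕ} (α x : Fin n → ℤ) (k : ℤ) : dot α (k • x) = k * dot α x := by
  unfold dot
  rw [Finset.mul_sum]
  refine Finset.sum_congr rfl fun i _ => ?_
  rw [Pi.smul_apply, smul_eq_mul]
  ring

private theorem nme_dot_dvd {n : ℕ} (β x1 x2 : Fin n → ℤ) (D : ℤ) (h : ∀ i, D ∣ x2 i - x1 i) :
    D ∣ dot β x2 - dot β x1 := by
  unfold dot
  rw [← Finset.sum_sub_distrib]
  refine Finset.dvd_sum fun i _ => ?_
  rw [← mul_sub]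
  exact Dvd.dvd.mul_left (h i) _

/-- Module NME. -/
theorem hNME (hCST : StCST) (hACT : StACT) : StNME := by
  intro n M 𝓐 K hC
  have h : ∀ α β : Fin n → ℤ, ∃ w : Fin n → ℤ, α ∈ 𝓐 → β ∈ 𝓐 → α ≠ β → dot α w = 0 ∧ dot β w ≠ 0 := by
    intro α β
    by_cases hh : α ∈ 𝓐 ∧ β ∈ 𝓐 ∧ α ≠ β
    · obtain ⟨w, hw⟩ := hC.nrm.2 α hh.1 β hh.2.1 hh.2.2
      exact ⟨w, fun _ _ _ => hw⟩
    · exact ⟨0, fun h1 h2 h3 => absurd ⟨h1, h2, h3⟩ hh⟩
  choose W hW using h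
  refine ⟨∏ p ∈ 𝓐 ×ˢ 𝓐, (max 1 (dot p.2 (W p.1 p.2)).natAbs), ?_, ?_⟩
  · exact Nat.one_le_iff_ne_zero.mpr (Finset.prod_ne_zero_iff.mpr fun p _ => by omega)
  intro ρ α hα β hβ hne ⟨x1, h1, a1⟩ ⟨x2, h2, a2⟩ ⟨y, hy, e1, e2⟩
  obtain ⟨w1, w2⟩ := hW α β hα hβ hne
  have hd1 : (max 1 (dot β (W α β)).natAbs) ∣ ∏ p ∈ 𝓐 ×ˢ 𝓐, (max 1 (dot p.2 (W p.1 p.2)).natAbs) :=
    Finset.dvd_prod_of_mem (fun p : (Fin n → ℤ) × (Fin n → ℤ) => max 1 (dot p.2 (W p.1 p.2)).natAbs)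
      (Finset.mk_mem_product hα hβ)
  have hmax : max 1 (dot β (W α β)).natAbs = (dot β (W α β)).natAbs := by
    apply max_eq_right
    have := Int.natAbs_ne_zero.mpr w2
    omega
  rw [hmax] at hd1
  have hd2 : dot β (W α β) ∣ ((∏ p ∈ 𝓐 ×ˢ 𝓐, (max 1 (dot p.2 (W p.1 p.2)).natAbs) : ℕ) : ℤ) :=
    Int.natAbs_dvd.mp (Int.natCast_dvd_natCast.mpr hd1)
  have hd3 := nme_dot_dvd β x1 x2 _ (fun i => by
    have := dvd_sub (h2 i) (h1 i)
    rwa [sub_sub_sub_cancel_right] at this)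
  obtain ⟨k, hk⟩ := dvd_trans hd2 hd3
  have f1 : dot α (x1 + k • W α β) = dot α x1 := by
    rw [nme_dot_add, nme_dot_smul, w1, mul_zero, add_zero]
  have f2 : dot β (x1 + k • W α β) = dot β x2 := by
    rw [nme_dot_add, nme_dot_smul]
    linarith
  exact hCST n M 𝓐 K hC α hα β hβ hne (x1 + k • W α β) y hy e1 e2
    ((hACT n M 𝓐 K hC α hα).2.1 x1 _ a1 f1) ((hACT n M 𝓐 K hC β hβ).2.1 x2 _ a2 f2)

end Pool.Agent.Helper90.TW
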