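import Pool.Agent.Helper54.PT.Defs

set_option autoImplicit false

namespace Pool.Agent.Helper54.PT

open Polynomial Finset Filter Topology

theorem A19_not_summable {f : ℕ → ℝ} {c : ℝ} (hc : 0 < c) (h : ∀ᶠ k : ℕ in atTop, c / k ≤ f k) :
    ¬ Summable f := by
  intro hs
  have h1 : Summable (fun k : ℕ => c / (k : ℝ)) := by
    refine Summable.of_norm_bounded_eventually_nat hs ?_
    filter_upwards [h] with k hk
    rw [Real.norm_of_nonneg (by positivity)]
    exact hk
  have h2 := h1.mul_left c⁻¹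
  refine Real.not_summable_one_div_natCast (h2.congr fun k => ?_)
  field_simp

/-- A19: divergence (abstract) -/
theorem div_of_prime_sum {ℓ : ℕ} [Fact ℓ.Prime] {σ : Type} [Fintype σ] (X : PData ℓ σ) (q : ℕ)
    (hq : 3 ≤ q) (c₀ : ℝ) (hc₀ : 0 < c₀)
    (hlow : ∀ᶠ k : ℕ in atTop, c₀ * (q : ℝ) ^ k ≤ k * (X.pr k).card) (d : ℕ)
    (hps : ∀ β : Option σ → ZMod ℓ, (∃ r, β (some r) ≠ 0) → ∀ k : ℕ, 1 ≤ k →
        k * ‖∑ p ∈ X.pr k, ee (dot β (X.xx p))‖ ≤
          d * (q * (1 - 1 / (40 * (d + 1) : ℝ))) ^ k + 2 * (q : ℝ) ^ (k / 2) + d) :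
    ∀ β : Option σ → ZMod ℓ, β ≠ 0 →
      Tendsto (fun n : ℕ => ∑ k ∈ range n,
        (((X.pr k).filter fun p => dot β (X.xx p) ≠ 0).card : ℝ) / (q : ℝ) ^ k) atTop atTop := by
  intro β hβ
  have hq0 : (0 : ℝ) < q := by
    have : 0 < q := by omega
    exact_mod_cast this
  have hq1 : (1 : ℝ) < q := by
    have : 1 < q := by omega
    exact_mod_cast this
  set f : ℕ → ℝ := fun k =>
    (((X.pr k).filter fun p => dot β (X.xx p) ≠ 0).card : ℝ) / (q : ℝ) ^ k with hf
  have hf0 : ∀ k, 0 ≤ f k := fun k => by simp only [hf]; positivity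
  refine (not_summable_iff_tendsto_nat_atTop_of_nonneg hf0).1 ?_
  by_cases hr : ∃ r, β (some r) ≠ 0
  · -- some nontrivial class
    set δ : ℝ := 1 / (40 * (d + 1) : ℝ) with hδ
    have hd0 : (0 : ℝ) ≤ d := Nat.cast_nonneg d
    have hδ0 : 0 < δ := by positivity
    have hδ1 : δ < 1 := by
      rw [hδ, div_lt_one (by positivity)]
      nlinarith
    have ht : Tendsto (fun k : ℕ => (d : ℝ) * (1 - δ) ^ k + 2 * ((Real.sqrt q)⁻¹) ^ k
        + d * ((q : ℝ)⁻¹) ^ k) atTop (𝓝 0) := by
      have t1 : Tendsto (fun k : ℕ => (1 - δ) ^ k) atTop (𝓝 0) :=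
        tendsto_pow_atTop_nhds_zero_of_lt_one (by linarith) (by linarith)
      have hs1 : (1 : ℝ) < Real.sqrt q := by
        rw [show (1 : ℝ) = Real.sqrt 1 by simp]
        exact Real.sqrt_lt_sqrt zero_le_one hq1
      have t2 : Tendsto (fun k : ℕ => ((Real.sqrt q)⁻¹) ^ k) atTop (𝓝 0) :=
        tendsto_pow_atTop_nhds_zero_of_lt_one (by positivity) (inv_lt_one_of_one_lt₀ hs1)
      have t3 : Tendsto (fun k : ℕ => ((q : ℝ)⁻¹) ^ k) atTop (𝓝 0) :=
        tendsto_pow_atTop_nhds_zero_of_lt_one (by positivity) (inv_lt_one_of_one_lt₀ hq1)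
      have := ((t1.const_mul (d : ℝ)).add (t2.const_mul 2)).add (t3.const_mul (d : ℝ))
      simpa using this
    have hev := ht.eventually (gt_mem_nhds (show (0 : ℝ) < c₀ / 2 by positivity))
    refine A19_not_summable (c := c₀ / 4) (by positivity) ?_
    filter_upwards [hlow, hev, eventually_ge_atTop 1] with k hk1 hk2 hk3
    have hkpos : (0 : ℝ) < k := by exact_mod_cast hk3
    have hqk : (0 : ℝ) < (q : ℝ) ^ k := by positivity
    have hS := hps β hr k hk3
    -- the counting inequality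
    have hcount : ((X.pr k).card : ℝ) ≤ ‖∑ p ∈ X.pr k, ee (dot β (X.xx p))‖
        + 2 * (((X.pr k).filter fun p => dot β (X.xx p) ≠ 0).card : ℝ) := by
      have hsplit := Finset.sum_filter_add_sum_filter_not (X.pr k)
        (fun p => dot β (X.xx p) ≠ 0) (fun p => ee (dot β (X.xx p)))
      have hz : ∑ p ∈ (X.pr k).filter (fun p => ¬ dot β (X.xx p) ≠ 0), ee (dot β (X.xx p))
          = (((X.pr k).filter fun p => ¬ dot β (X.xx p) ≠ 0).card : ℂ) := by
        rw [Finset.card_eq_sum_ones, Nat.cast_sum]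
        refine Finset.sum_congr rfl fun p hp => ?_
        have h0 := (mem_filter.1 hp).2
        rw [not_not] at h0
        rw [h0]
        simp [ee]
      have hn : ‖∑ p ∈ (X.pr k).filter (fun p => dot β (X.xx p) ≠ 0), ee (dot β (X.xx p))‖
          ≤ (((X.pr k).filter fun p => dot β (X.xx p) ≠ 0).card : ℝ) := by
        refine (norm_sum_le _ _).trans (le_of_eq ?_)
        rw [Finset.card_eq_sum_ones, Nat.cast_sum]
        refine Finset.sum_congr rfl fun p _ => ?_
        simp [ee]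
      have hcard := Finset.card_filter_add_card_filter_not (s := X.pr k)
        (fun p => dot β (X.xx p) ≠ 0)
      have hcardR : ((X.pr k).card : ℝ)
          = (((X.pr k).filter fun p => dot β (X.xx p) ≠ 0).card : ℝ)
            + (((X.pr k).filter fun p => ¬ dot β (X.xx p) ≠ 0).card : ℝ) := by
        exact_mod_cast hcard.symm
      have hnz : (((X.pr k).filter fun p => ¬ dot β (X.xx p) ≠ 0).card : ℝ)
          ≤ ‖∑ p ∈ X.pr k, ee (dot β (X.xx p))‖
            + (((X.pr k).filter fun p => dot β (X.xx p) ≠ 0).card : ℝ) := by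
        have e : (((X.pr k).filter fun p => ¬ dot β (X.xx p) ≠ 0).card : ℝ)
            = ‖(((X.pr k).filter fun p => ¬ dot β (X.xx p) ≠ 0).card : ℂ)‖ := by
          simp
        rw [e, ← hz]
        have e2 : ∑ p ∈ (X.pr k).filter (fun p => ¬ dot β (X.xx p) ≠ 0), ee (dot β (X.xx p))
            = ∑ p ∈ X.pr k, ee (dot β (X.xx p))
              - ∑ p ∈ (X.pr k).filter (fun p => dot β (X.xx p) ≠ 0), ee (dot β (X.xx p)) := by
          rw [← hsplit]; ring
        rw [e2]
        exact (norm_sub_le _ _).trans (by linarith)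
      linarith
    have hbound : (k : ℝ) * ‖∑ p ∈ X.pr k, ee (dot β (X.xx p))‖ ≤ c₀ / 2 * (q : ℝ) ^ k := by
      refine hS.trans ?_
      have hsq : (q : ℝ) ^ (k / 2) ≤ ((Real.sqrt q)⁻¹) ^ k * (q : ℝ) ^ k := by
        have e1 : (Real.sqrt q)⁻¹ * (q : ℝ) = Real.sqrt q := by
          rw [inv_mul_eq_iff_eq_mul₀ (by positivity), Real.mul_self_sqrt hq0.le]
        rw [← mul_pow, e1]
        have e2 : (q : ℝ) ^ (k / 2) = Real.sqrt q ^ (2 * (k / 2)) := by
          rw [pow_mul, Real.sq_sqrt hq0.le]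
        rw [e2]
        have hs1 : (1 : ℝ) ≤ Real.sqrt q := Real.one_le_sqrt.mpr hq1.le
        exact pow_le_pow_right₀ hs1 (Nat.mul_div_le k 2)
      have e3 : ((q : ℝ) * (1 - δ)) ^ k = (1 - δ) ^ k * (q : ℝ) ^ k := by
        rw [mul_pow, mul_comm]
      have e4 : (1 : ℝ) = ((q : ℝ)⁻¹) ^ k * (q : ℝ) ^ k := by
        rw [← mul_pow, inv_mul_cancel₀ hq0.ne', one_pow]
      have e5 : (d : ℝ) = d * (((q : ℝ)⁻¹) ^ k * (q : ℝ) ^ k) := by rw [← e4, mul_one]
      have h3 := mul_le_mul_of_nonneg_right hk2.le hqk.le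
      rw [e3]
      nlinarith [hsq, h3, e5]
    simp only [hf]
    rw [div_le_div_iff₀ hkpos hqk]
    nlinarith [mul_le_mul_of_nonneg_left hcount hkpos.le]
  · -- only the degree
    push Not at hr
    have hb : β none ≠ 0 := by
      intro h0
      apply hβ
      funext s
      cases s with
      | none => exact h0
      | some r => exact hr r
    have hdot : ∀ p, dot β (X.xx p) = β none * (X.deg p : ZMod ℓ) := by
      intro p
      unfold dot
      rw [Fintype.sum_option]
      simp [hr, PData.xx]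
    intro hs
    have hℓ : 2 ≤ ℓ := (Fact.out : ℓ.Prime).two_le
    have hinj : Function.Injective (fun j : ℕ => ℓ * j + 1) := by
      intro a b hab
      simp only [Nat.add_right_cancel_iff] at hab
      exact Nat.eq_of_mul_eq_mul_left (by omega) hab
    have hs2 := hs.comp_injective hinj
    have hℓR : (0 : ℝ) < ℓ := by
      have : 0 < ℓ := by omega
      exact_mod_cast this
    refine A19_not_summable (c := c₀ / (ℓ + 1)) (by positivity) ?_ hs2
    have htend : Tendsto (fun j : ℕ => ℓ * j + 1) atTop atTop :=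
      tendsto_atTop_mono (fun j => by simp only [id]; nlinarith) tendsto_id
    filter_upwards [htend.eventually hlow, eventually_ge_atTop 1] with j hj1 hj2
    have hjpos : (0 : ℝ) < j := by exact_mod_cast hj2
    have hne : ((ℓ * j + 1 : ℕ) : ZMod ℓ) ≠ 0 := by
      push_cast
      simp
    have hfil : ((X.pr (ℓ * j + 1)).filter fun p => dot β (X.xx p) ≠ 0) = X.pr (ℓ * j + 1) := by
      refine Finset.filter_true_of_mem fun p hp => ?_
      rw [hdot, (X.mem_pr _ p).1 hp]
      exact mul_ne_zero hb hne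
    simp only [Function.comp, hf]
    rw [hfil, div_div, div_le_div_iff₀ (by positivity) (by positivity)]
    have hk : ((ℓ * j + 1 : ℕ) : ℝ) ≤ (ℓ + 1) * j := by
      push_cast
      have : (1 : ℝ) ≤ j := by exact_mod_cast hj2
      nlinarith
    calc c₀ * (q : ℝ) ^ (ℓ * j + 1) ≤ ((ℓ * j + 1 : ℕ) : ℝ) * ((X.pr (ℓ * j + 1)).card : ℝ) := hj1
      _ ≤ ((ℓ + 1) * j) * ((X.pr (ℓ * j + 1)).card : ℝ) :=
          mul_le_mul_of_nonneg_right hk (Nat.cast_nonneg _)
      _ = _ := by ring

end Pool.Agent.Helper54.PT
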